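import Mathlib

namespace Pool.Agent.Results.MP_0a1256_an.Signed

open scoped ComplexOrder

/-- the commutative C*-algebra `ℂ ⊕ ℂ`; `E = B` with `⟨x, y⟩ = x* y`. -/
abbrev B := Fin 2 → ℂ

/-- the linking algebra of the Hilbert module `E = B`, namely `M₂(B)` with its C*-norm. -/
abbrev Link := CStarMatrix (Fin 2) (Fin 2) B

/-- the `21`-corner embedding of `E`. -/
def corner (x : B) : Link := CStarMatrix.ofMatrix !![0, 0; x, 0]

theorem result : ∃ (F : Submodule ℂ B) (P : B →ₗ[ℂ] B), IsClosed (F : Set B) ∧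
    (∀ x ∈ F, ∀ y ∈ F, ∀ z ∈ F, x * (star y * z) ∈ F) ∧
    LinearMap.range P = F ∧ P ∘ₗ P = P ∧
    (∀ x y z, P (P x * (star y * P z)) = P x * (star (P y) * P z)) ∧
    (∃ x, ‖x‖ < ‖P x‖) ∧
    ¬ ∃ Φ : Link →L[ℂ] Link, ‖Φ‖ ≤ 1 ∧ ∀ x, Φ (corner x) = corner (P x) := by
  obtain ⟨P, hP⟩ : ∃ P : B →ₗ[ℂ] B, ∀ x i, P x i = 2 * x 0 - x 1 :=
    ⟨{ toFun := fun x _ => 2 * x 0 - x 1
       map_add' := fun x y => by ext i; simp; ring
       map_smul' := fun c x => by ext i; simp; ring }, fun _ _ => rfl⟩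
  have h3 : ‖P ![1, -1]‖ = 3 := by
    have : P ![1, -1] = fun _ => 3 := by ext i; simp [hP]; norm_num
    rw [this, pi_norm_const]; simp
  refine ⟨LinearMap.range P, P, Submodule.closed_of_finiteDimensional _, ?_, rfl, ?_, ?_,
    ⟨![1, -1], ?_⟩, ?_⟩
  · rintro _ ⟨x, rfl⟩ _ ⟨y, rfl⟩ _ ⟨z, rfl⟩
    refine ⟨P x * (star (P y) * P z), ?_⟩
    ext i; simp [hP]; ring
  · ext1 x; ext i; simp [hP]; ring
  · intro x y z; ext i; simp [hP]; ring
  · rw [h3, pi_norm_lt_iff (by norm_num)]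
    intro i; fin_cases i <;> simp
  · rintro ⟨Φ, h1, h2⟩
    have k1 : ‖corner ![1, -1]‖ ≤ 1 := by
      have hp : IsStarProjection (star (corner ![1, -1]) * corner ![1, -1]) := by
        refine ⟨?_, IsSelfAdjoint.star_mul_self _⟩
        ext i j k
        fin_cases i <;> fin_cases j <;> fin_cases k <;>
          simp [corner, CStarMatrix.mul_apply, CStarMatrix.star_apply, Fin.sum_univ_two]
      have := hp.norm_le
      have h4 := CStarRing.norm_star_mul_self (x := corner ![1, -1])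
      have h5 := h4.symm.trans_le this
      nlinarith [norm_nonneg (corner ![1, -1])]
    have k2 : ‖P ![1, -1]‖ ≤ ‖corner (P ![1, -1])‖ :=
      CStarMatrix.norm_entry_le_norm (M := corner (P ![1, -1])) (i := 1) (j := 0)
    have k3 := Φ.le_opNorm (corner ![1, -1])
    rw [h2] at k3
    nlinarith [norm_nonneg (corner ![1, -1]), norm_nonneg Φ]

end Pool.Agent.Results.MP_0a1256_an.Signed
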